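import Pool.Agent.Lib.P773b84.Rate

/-!
Exact value of `g n`, the largest size of a subset of `{1,…,n}` in which no element is a
multiple of two others, and its asymptotics `g n = γ n + O(log n)`.
-/

namespace Pool.Agent.Results.MP_773b84_nt.ExactFormula

open Finset Filter Topology

/-- `A` is admissible: no element of `A` is a common multiple of two other elements of `A`. -/
def Admissible (A : Finset ℕ) : Prop :=
  ∀ a ∈ A, ∀ b ∈ A, ∀ c ∈ A, a ≠ b → a ≠ c → b ≠ c → ¬ (b ∣ a ∧ c ∣ a)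

open Classical in
/-- `g n` is the largest size of an admissible subset of `{1, …, n}`. -/
noncomputable def g (n : ℕ) : ℕ :=
  ((Icc 1 n).powerset.filter Admissible).sup Finset.card

/-- `c y = ⌊(y+5)/6⌋ + ⌊(y+1)/6⌋`, the number of positive integers `≤ y` coprime to `6`. -/
def c (y : ℕ) : ℕ := (y + 5) / 6 + (y + 1) / 6

/-- The constant
`γ = 13/18 - (1/3) ∑_{b,l ≥ 0} max(0, 1/max(15·3^b, 10·4^l) - 1/min(18·3^b, 16·4^l))`. -/
noncomputable def γ : ℝ :=
  13 / 18 - 1 / 3 * ∑' p : ℕ × ℕ,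
    max 0 (1 / max (15 * 3 ^ p.1) (10 * 4 ^ p.2) - 1 / min (18 * 3 ^ p.1) (16 * 4 ^ p.2))

theorem adm_eq : Admissible = P773b84.Admissible := rfl

theorem g_eq (n : ℕ) : g n = P773b84.g n := rfl

theorem W_card_eq (n : ℕ) (p : ℕ × ℕ) :
    (P773b84.W n (P773b84.lo p) (P773b84.hi p)).card =
      c (n / P773b84.lo p) - c (n / P773b84.hi p) := by
  have e : ∀ y, c y = P773b84.c6 y := fun y => (P773b84.c6_eq y).symm
  rcases le_total (P773b84.lo p) (P773b84.hi p) with h | h
  · have h1 := P773b84.W_card (n := n) h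
    rw [P773b84.card_le_eq (P773b84.lo_pos p), P773b84.card_le_eq (P773b84.hi_pos p)] at h1
    rw [e, e]
    omega
  · rw [P773b84.W_empty h]
    have h1 : n / P773b84.lo p ≤ n / P773b84.hi p :=
      Nat.div_le_div_left h (P773b84.hi_pos p)
    unfold c
    omega

/-- **Exact formula for `g n`, and its asymptotics.** -/
theorem result :
    (∀ n : ℕ, g n + ∑ b ∈ range n, ∑ l ∈ range n,
        (c (n / max (15 * 3 ^ b) (10 * 4 ^ l)) - c (n / min (18 * 3 ^ b) (16 * 4 ^ l))) =
      (n + 1) / 2 + ∑ j ∈ range n, c (n / (2 * 4 ^ j))) ∧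
    (∀ n : ℕ, 2 ≤ n → |(g n : ℝ) - γ * n| ≤ 20 * Real.log n) ∧
    0.7195578 < γ ∧ γ < 0.7195579 := by
  refine ⟨?_, ?_, P773b84.limit_bounds.1, P773b84.limit_bounds.2⟩
  · intro n
    have h1 := P773b84.g_formula n
    rw [P773b84.E_card, Finset.sum_product] at h1
    rw [g_eq]
    have h2 : ∑ b ∈ range n, ∑ l ∈ range n,
        (c (n / max (15 * 3 ^ b) (10 * 4 ^ l)) - c (n / min (18 * 3 ^ b) (16 * 4 ^ l))) =
        ∑ b ∈ range n, ∑ l ∈ range n,
          (P773b84.W n (P773b84.lo (b, l)) (P773b84.hi (b, l))).card := by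
      apply Finset.sum_congr rfl
      intro b _
      apply Finset.sum_congr rfl
      intro l _
      exact (W_card_eq n (b, l)).symm
    have h3 : ∑ j ∈ range n, c (n / (2 * 4 ^ j)) = ∑ j ∈ range n, (P773b84.S n j).card := by
      apply Finset.sum_congr rfl
      intro j _
      have := P773b84.card_le_eq (a := 2 * 4 ^ j) (by positivity) n
      unfold P773b84.S
      rw [this, P773b84.c6_eq]
      rfl
    rw [h2, h3]
    exact h1
  · intro n hn
    exact P773b84.g_rate hn

end Pool.Agent.Results.MP_773b84_nt.ExactFormula
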